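import Pool.Agent.Lib.P07318g.FinalN

/-!
# Moments of every order of the Riemann zeta function with a genuine fourth power and free shifts

For every `n` there are `C, η > 0` such that for `T ≥ 1`, `α ∈ [T, 2T]`, `β ∈ [T, 2T]^n`, for all `h` in the box
`∏ [β_j, β_j + T]` outside a set of measure at most `C T^(n-η)`, and for all `0 ≤ V ≤ T` at once,
`∫_0^V |ζ(1/2 + i(t+α))|⁴ ∏_j |ζ(1/2 + i(t+h_j))|² dt = ∫_0^V M(t+α; t+h_1, …, t+h_n) dt + O(T^(1-η))`,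
with the main term `M` of the recipe of Conrey, Farmer, Keating, Rubinstein and Snaith for the moment of order
`2k = 2n + 4` (all lower order terms included). Two of the `k` shifts are equal, and nothing is averaged there.
-/

set_option autoImplicit false

namespace Pool.Agent.Results.MP_07318d_nt.FourthPowerFreeShifts

open MeasureTheory Complex

/-- `e(θ) = exp(2π i θ)` -/
noncomputable def e (θ : ℝ) : ℂ := Complex.exp (2 * Real.pi * I * θ)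

/-- The Euler factor at `p` of `A_k(z_1, …, z_k, z'_1, …, z'_k)` as in the problem file
(`z'_j` stands for `z_{k+j}`). -/
noncomputable def eulerFactor {k : ℕ} (z z' : Fin k → ℂ) (p : ℕ) : ℂ :=
  (∏ l, ∏ j, (1 - (p : ℂ) ^ (-1 - z l + z' j))) *
    ∫ θ in (0:ℝ)..1, ∏ j, ((1 - e θ / (p : ℂ) ^ (1 / 2 + z j))⁻¹ *
      (1 - e (-θ) / (p : ℂ) ^ (1 / 2 - z' j))⁻¹)

/-- the Euler product `A_k` -/
noncomputable def A {k : ℕ} (z z' : Fin k → ℂ) : ℂ := ∏' p : Nat.Primes, eulerFactor z z' p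

/-- the function `G = A_k ∏_{i,j} ζ(1 + z_i - z_{k+j})` -/
noncomputable def G {k : ℕ} (z z' : Fin k → ℂ) : ℂ :=
  A z z' * ∏ i, ∏ j, riemannZeta (1 + z i - z' j)

/-- `Δ(z_1, …, z_4) = ∏_{i < j} (z_j - z_i)` -/
noncomputable def Δ (z : Fin 4 → ℂ) : ℂ := ∏ i, ∏ j ∈ Finset.Ioi i, (z j - z i)

/-- The main term at the heights `x` (twice) and `y_1, …, y_n` (`k = n + 2`):
`1/(4 (2πi)^4 (πi)^n) ∮ … ∮ G(z_1 + ix, z_2 + ix, w_1 + iy_1, …, w_n + iy_n, z_3 + ix, z_4 + ix, -w_1 + iy_1, …, -w_n + iy_n)`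
`Δ(z_1, …, z_4)² / ∏_l z_l^4 (x/2π)^((z_1+z_2-z_3-z_4)/2) ∏_j (y_j/2π)^(w_j) w_j^(-1) dw_j dz_1 … dz_4`,
over `|z_l| = 1/16`, `|w_j| = 1/8`. -/
noncomputable def mainTerm {n : ℕ} (x : ℝ) (y : Fin n → ℝ) : ℂ :=
  (4 * (2 * Real.pi * I) ^ 4 * (Real.pi * I) ^ n)⁻¹ * ∯ z in T((0 : Fin 4 → ℂ), fun _ => 1 / 16),
    ∯ w in T((0 : Fin n → ℂ), fun _ => 1 / 8),
      G (Fin.cons (z 0 + x * I) (Fin.cons (z 1 + x * I) fun j => w j + y j * I) : Fin (n + 2) → ℂ)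
          (Fin.cons (z 2 + x * I) (Fin.cons (z 3 + x * I) fun j => -w j + y j * I)) *
        (Δ z ^ 2 / ∏ l, z l ^ 4) *
        (((x / (2 * Real.pi) : ℝ) : ℂ) ^ ((z 0 + z 1 - z 2 - z 3) / 2) *
          ∏ j, (((y j / (2 * Real.pi) : ℝ) : ℂ) ^ w j / w j))

theorem delta_eq (z : Fin 4 → ℂ) : Δ z = Pool.Agent.P07318f.vdm z := by
  unfold Δ Pool.Agent.P07318f.vdm
  have h0 : Finset.Ioi (0 : Fin 4) = {1, 2, 3} := by decide
  have h1 : Finset.Ioi (1 : Fin 4) = {2, 3} := by decide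
  have h2 : Finset.Ioi (2 : Fin 4) = {3} := by decide
  have h3 : Finset.Ioi (3 : Fin 4) = ∅ := by decide
  rw [Fin.prod_univ_four, h0, h1, h2, h3]
  rw [Finset.prod_insert (by decide), Finset.prod_insert (by decide), Finset.prod_singleton,
    Finset.prod_insert (by decide), Finset.prod_singleton, Finset.prod_singleton, Finset.prod_empty]
  ring

theorem mainTerm_eq {n : ℕ} (x : ℝ) (y : Fin n → ℝ) : Pool.Agent.P07318g.Mn x y = mainTerm x y := by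
  unfold Pool.Agent.P07318g.Mn mainTerm
  have key : ∀ z : Fin 4 → ℂ,
      Pool.Agent.P07318g.Rn x y ![z 0, z 1, -z 2, -z 3] *
        Pool.Agent.P07318f.X2 x ((z 0 + z 1 - z 2 - z 3) / 2) * Pool.Agent.P07318f.vdm z ^ 2 / ∏ i, z i ^ 4 =
      ((Real.pi * I) ^ n)⁻¹ * ∯ w in T((0 : Fin n → ℂ), fun _ => 1 / 8),
        G (Fin.cons (z 0 + x * I) (Fin.cons (z 1 + x * I) fun j => w j + y j * I) : Fin (n + 2) → ℂ)
          (Fin.cons (z 2 + x * I) (Fin.cons (z 3 + x * I) fun j => -w j + y j * I)) *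
        (Δ z ^ 2 / ∏ l, z l ^ 4) *
        (((x / (2 * Real.pi) : ℝ) : ℂ) ^ ((z 0 + z 1 - z 2 - z 3) / 2) *
          ∏ j, (((y j / (2 * Real.pi) : ℝ) : ℂ) ^ w j / w j)) := by
    intro z
    have h1 : ∀ w : Fin n → ℂ,
        G (Fin.cons (z 0 + x * I) (Fin.cons (z 1 + x * I) fun j => w j + y j * I) : Fin (n + 2) → ℂ)
          (Fin.cons (z 2 + x * I) (Fin.cons (z 3 + x * I) fun j => -w j + y j * I)) *
        (Δ z ^ 2 / ∏ l, z l ^ 4) *
        (((x / (2 * Real.pi) : ℝ) : ℂ) ^ ((z 0 + z 1 - z 2 - z 3) / 2) *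
          ∏ j, (((y j / (2 * Real.pi) : ℝ) : ℂ) ^ w j / w j)) =
        (Pool.Agent.P07318f.X2 x ((z 0 + z 1 - z 2 - z 3) / 2) * Pool.Agent.P07318f.vdm z ^ 2 / ∏ i, z i ^ 4) *
          ((∏ j, (Pool.Agent.P07318f.X2 (y j) (w j) / w j)) *
            Pool.Agent.P07318g.Gn x y ![z 0, z 1, -z 2, -z 3] w) := by
      intro w
      rw [delta_eq]
      have h2 : Pool.Agent.P07318g.Gn x y ![z 0, z 1, -z 2, -z 3] w =
          G (Fin.cons (z 0 + x * I) (Fin.cons (z 1 + x * I) fun j => w j + y j * I) : Fin (n + 2) → ℂ)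
          (Fin.cons (z 2 + x * I) (Fin.cons (z 3 + x * I) fun j => -w j + y j * I)) := by
        unfold Pool.Agent.P07318g.Gn Pool.Agent.P07318g.zv Pool.Agent.P07318g.zv'
        simp only [Matrix.cons_val, neg_neg]
        rfl
      rw [h2]
      unfold Pool.Agent.P07318f.X2
      ring
    simp_rw [h1]
    have h3 : ∀ (f : (Fin n → ℂ) → ℂ) (c : ℂ), (∯ w in T((0 : Fin n → ℂ), fun _ => 1 / 8), c * f w) =
        c * ∯ w in T((0 : Fin n → ℂ), fun _ => 1 / 8), f w := fun f c => torusIntegral_const_mul c f 0 _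
    rw [h3]
    unfold Pool.Agent.P07318g.Rn
    ring
  simp_rw [key]
  have h3 : ∀ (f : (Fin 4 → ℂ) → ℂ) (c : ℂ), (∯ z in T((0 : Fin 4 → ℂ), fun _ => 1 / 16), c * f z) =
      c * ∯ z in T((0 : Fin 4 → ℂ), fun _ => 1 / 16), f z := fun f c => torusIntegral_const_mul c f 0 _
  rw [h3, ← mul_assoc]
  congr 1
  rw [← mul_inv]

theorem result : ∀ n : ℕ,
    ∃ C η : ℝ, 0 < C ∧ 0 < η ∧ ∀ (T α : ℝ) (β : Fin n → ℝ), 1 ≤ T → T ≤ α → α ≤ 2 * T →
      (∀ j, T ≤ β j) → (∀ j, β j ≤ 2 * T) →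
      volume {h | h ∈ Set.Icc β (fun j => β j + T) ∧ ∃ V ∈ Set.Icc 0 T, C * T ^ (1 - η) <
        ‖∫ t in (0:ℝ)..V, (((‖riemannZeta (1 / 2 + ((t + α : ℝ) : ℂ) * I)‖ ^ 4 *
          ∏ j, ‖riemannZeta (1 / 2 + ((t + h j : ℝ) : ℂ) * I)‖ ^ 2 : ℝ) : ℂ) -
            mainTerm (t + α) fun j => t + h j)‖} ≤
      ENNReal.ofReal (C * T ^ ((n : ℝ) - η)) := by
  intro n
  simp only [← mainTerm_eq]
  exact Pool.Agent.P07318g.moment_n n

end Pool.Agent.Results.MP_07318d_nt.FourthPowerFreeShifts
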