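import Pool.Agent.Lib.P07318t.BoxH
import Pool.Agent.Lib.P07318t.FinH

/-!
# Shifted moments of the Riemann zeta function of every order, almost all shifts in boxes of side a power of the logarithm

For every `k = n + 1 ≥ 2` there are `C, η > 0` such that for all large `T`, all sides `(log T)^C ≤ H ≤ T`, every
`α_0 ∈ [T, 2T]` and every box of side `H` with base point in `[T, 2T]^n`, for all `(α_1, …, α_n)` in the box outside
a set of measure at most `H^n H^(-η)` and all `0 ≤ V ≤ T` at once: the shifted `2k`-th moment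
`∫_0^V ∏_{j ≤ n} |ζ(1/2 + i (t + α_j))|² dt` is at least the integral of the main term (the terms without oscillation of the
recipe of Conrey, Farmer, Keating, Rubinstein and Snaith) minus `T H^(-η)`, and the two integrals differ by at most
`T H^(-η)` if the first is taken over `[0, V]` without a set `E` of measure at most `T H^(-η)`, which depends on the box
but not on the point of the box nor on `V`. For `H ≥ T^((n-1)/(3n) + δ)` the set `E` is empty.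
-/

set_option autoImplicit false

namespace Pool.Agent.Results.MP_07318d_nt.PolylogShifts

open MeasureTheory Complex

/-- `e(θ) = exp(2π i θ)` -/
noncomputable def e (θ : ℝ) : ℂ := Complex.exp (2 * Real.pi * I * θ)

/-- The Euler factor at `p` of `A_k(z_1, …, z_k, z'_1, …, z'_k)` as in the problem file
(`z'_j` stands for `z_{k+j}`). -/
noncomputable def eulerFactor {k : ℕ} (z z' : Fin k → ℂ) (p : ℕ) : ℂ :=
  (∏ l, ∏ j, (1 - (p : ℂ) ^ (-1 - z l + z' j))) *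
    ∫ θ in (0:ℝ)..1, ∏ j, ((1 - e θ / (p : ℂ) ^ (1 / 2 + z j))⁻¹ *
      (1 - e (-θ) / (p : ℂ) ^ (1 / 2 - z' j))⁻¹)

/-- the Euler product `A_k` -/
noncomputable def A {k : ℕ} (z z' : Fin k → ℂ) : ℂ := ∏' p : Nat.Primes, eulerFactor z z' p

/-- the function `G = A_k ∏_{i,j} ζ(1 + z_i - z_{k+j})` -/
noncomputable def G {k : ℕ} (z z' : Fin k → ℂ) : ℂ :=
  A z z' * ∏ i, ∏ j, riemannZeta (1 + z i - z' j)

/-- The main term at the heights `x_1, …, x_k`: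
`(π i)^(-k) ∮_{|w_1| = 1/8} … ∮_{|w_k| = 1/8} G(w_1 + i x_1, …, w_k + i x_k, -w_1 + i x_1, …, -w_k + i x_k)
∏_j (x_j/2π)^(w_j) dw_j / w_j`, i.e. the sum of the residues of the recipe for the unshifted pairs
`(z_j, z_{k+j})` at the heights `x_j`. -/
noncomputable def mainTerm {k : ℕ} (x : Fin k → ℝ) : ℂ :=
  ((Real.pi * I) ^ k)⁻¹ * ∯ w in T(0, fun _ => 1 / 8),
    G (fun j => w j + x j * I) (fun j => -w j + x j * I) *
      ∏ j, (((x j / (2 * Real.pi) : ℝ) : ℂ) ^ (w j) / w j)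

theorem result :
    ∀ (n : ℕ) (δ : ℝ), 1 ≤ n → 0 < δ → ∃ C η T₀ : ℝ, 0 < C ∧ 0 < η ∧ 3 ≤ T₀ ∧ ∀ T H : ℝ, T₀ ≤ T →
      Real.log T ^ C ≤ H → H ≤ T → ∀ α₀ : ℝ, T ≤ α₀ → α₀ ≤ 2 * T → ∀ β : Fin n → ℝ,
      (∀ j, T ≤ β j) → (∀ j, β j ≤ 2 * T) →
      ∃ E : Set ℝ, MeasurableSet E ∧ E ⊆ Set.Icc 0 T ∧ volume E ≤ ENNReal.ofReal (T * H ^ (-η)) ∧
        (T ^ (((n : ℝ) - 1) / (3 * n) + δ) ≤ H → E = ∅) ∧
        volume {α | α ∈ Set.Icc β (fun j => β j + H) ∧ ¬ ∀ V ∈ Set.Icc 0 T,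
          (∫ t in (0:ℝ)..V, mainTerm (fun j => t + (Fin.cons α₀ α : Fin (n + 1) → ℝ) j)).re - T * H ^ (-η) ≤
            ∫ t in (0:ℝ)..V, ∏ j, ‖riemannZeta (1 / 2 +
              ((t + (Fin.cons α₀ α : Fin (n + 1) → ℝ) j : ℝ) : ℂ) * I)‖ ^ 2 ∧
          ‖((∫ t in Set.Icc 0 V \ E, ∏ j, ‖riemannZeta (1 / 2 +
              ((t + (Fin.cons α₀ α : Fin (n + 1) → ℝ) j : ℝ) : ℂ) * I)‖ ^ 2 : ℝ) : ℂ) -
            ∫ t in (0:ℝ)..V, mainTerm (fun j => t + (Fin.cons α₀ α : Fin (n + 1) → ℝ) j)‖ ≤ T * H ^ (-η)} ≤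
        ENNReal.ofReal (H ^ n * H ^ (-η)) := by
  intro n δ hn hδ
  obtain ⟨C, η, T₀, hC, hη, hT₀, h⟩ :=
    Pool.Agent.P07318t.fin_of_h n hn δ hδ (Pool.Agent.P07318t.box_h n hn)
  refine ⟨C, η, T₀, hC, hη, hT₀, fun T H hT hTH hHT α₀ h0 h0' β hβ hβ' => ?_⟩
  obtain ⟨E, hE1, hE2, hE3, hE4, hE5⟩ := h T H hT hTH hHT α₀ h0 h0' β hβ hβ'
  refine ⟨E, hE1, hE2, hE3, hE4, (measure_mono ?_).trans hE5⟩
  rintro α ⟨hα, hV⟩
  refine ⟨hα, fun hall => hV fun V hVm => ?_⟩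
  obtain ⟨h1, h2⟩ := hall V hVm
  refine ⟨h2, ?_⟩
  rw [integral_complex_ofReal] at h1
  exact h1

end Pool.Agent.Results.MP_07318d_nt.PolylogShifts
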