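import Pool.Agent.Lib.P07318w.FinalN

/-!
# The sixth moment of zeta is at least five sixths of its conjectured size

`∫_{T-H}^T |ζ(1/2+it)|^6 dt ≥ 35 (a_3 / 9!) H (log T)^9` for `T^(1-δ) ≤ H ≤ T`, `T` large, where
`a_3 = ∏_p (1-1/p)^4 (1+4/p+1/p^2)`. The conjectured constant is `42` in place of `35`.
-/

set_option autoImplicit false

namespace Pool.Agent.Results.MP_07318d_nt.SixthMomentFiveSixths

theorem result :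
    Multipliable (fun p : Nat.Primes => (1 - 1 / ((p : ℕ) : ℝ)) ^ 4 * (1 + 4 / ((p : ℕ) : ℝ) + 1 / ((p : ℕ) : ℝ) ^ 2)) ∧
    0 < ∏' p : Nat.Primes, ((1 - 1 / ((p : ℕ) : ℝ)) ^ 4 * (1 + 4 / ((p : ℕ) : ℝ) + 1 / ((p : ℕ) : ℝ) ^ 2)) ∧
    ∃ δ : ℝ, 0 < δ ∧ ∃ T₀ : ℝ, ∀ T H : ℝ, T₀ ≤ T → T ^ (1 - δ) ≤ H → H ≤ T →
      35 * ((∏' p : Nat.Primes,
          ((1 - 1 / ((p : ℕ) : ℝ)) ^ 4 * (1 + 4 / ((p : ℕ) : ℝ) + 1 / ((p : ℕ) : ℝ) ^ 2))) / (Nat.factorial 9 : ℝ)) *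
          H * Real.log T ^ 9 ≤
        ∫ t in (T - H)..T, ‖riemannZeta (1 / 2 + t * Complex.I)‖ ^ 6 := by
  obtain ⟨δ, hδ, T₀, _, h⟩ := Pool.Agent.P07318w.sixth_moment_n
  exact ⟨Pool.Agent.P07318m.a3_multipliable, Pool.Agent.P07318m.a3_pos, δ, hδ, T₀, h⟩

end Pool.Agent.Results.MP_07318d_nt.SixthMomentFiveSixths
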